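import Mathlib

/-! An obstruction to uniquely ergodic models. -/

set_option autoImplicit false

open MeasureTheory Set Function TopologicalSpace Filter Topology
open scoped ENNReal NNReal BoundedContinuousFunction

namespace Pool.Agent.P.MP_11b517_an

lemma arith_final {N Da Db d η : ℝ≥0∞} (hd : d ≤ 1 / 10000) (hη : η ≤ 1 / 10000)
    (h1 : 1 ≤ 2 * d + 2 * N) (h2 : Da ≤ 3 * d + 3 * d + 12 * η) (h3 : Db ≤ 2 * d + 2 * d)
    (h4 : N ≤ 39 * Da + 52 * Db) : False := by
  have hd' : d ≠ ∞ := ne_top_of_le_ne_top (by simp) hd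
  have hη' : η ≠ ∞ := ne_top_of_le_ne_top (by simp) hη
  have hDa : Da ≠ ∞ := ne_top_of_le_ne_top (by finiteness) h2
  have hDb : Db ≠ ∞ := ne_top_of_le_ne_top (by finiteness) h3
  have hN : N ≠ ∞ := ne_top_of_le_ne_top (by finiteness) h4
  lift N to ℝ≥0 using hN
  lift Da to ℝ≥0 using hDa
  lift Db to ℝ≥0 using hDb
  lift d to ℝ≥0 using hd'
  lift η to ℝ≥0 using hη'
  have e : (1 / 10000 : ℝ≥0∞) = ((1 / 10000 : ℝ≥0) : ℝ≥0∞) := by
    rw [ENNReal.coe_div (by norm_num)]; simp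
  rw [e] at hd hη
  norm_cast at *
  rw [← NNReal.coe_le_coe] at hd hη h1 h2 h3 h4
  push_cast at *
  linarith

lemma ofReal_le_two {x y z : ℝ} (hy : 0 ≤ y) (hz : 0 ≤ z) (h : x ≤ 2 * y + 2 * z) :
    ENNReal.ofReal x ≤ 2 * ENNReal.ofReal y + 2 * ENNReal.ofReal z := by
  have e : (2 : ℝ≥0∞) = ENNReal.ofReal 2 := by simp
  rw [e, ← ENNReal.ofReal_mul (by norm_num), ← ENNReal.ofReal_mul (by norm_num),
    ← ENNReal.ofReal_add (by positivity) (by positivity)]
  exact ENNReal.ofReal_le_ofReal h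

lemma ofReal_le_three {x y z t : ℝ} (hy : 0 ≤ y) (hz : 0 ≤ z) (ht : 0 ≤ t)
    (h : x ≤ 3 * y + 3 * z + 12 * t) :
    ENNReal.ofReal x ≤ 3 * ENNReal.ofReal y + 3 * ENNReal.ofReal z + 12 * ENNReal.ofReal t := by
  have e : (3 : ℝ≥0∞) = ENNReal.ofReal 3 := by simp
  have e' : (12 : ℝ≥0∞) = ENNReal.ofReal 12 := by simp
  rw [e, e', ← ENNReal.ofReal_mul (by norm_num), ← ENNReal.ofReal_mul (by norm_num),
    ← ENNReal.ofReal_mul (by norm_num),
    ← ENNReal.ofReal_add (by positivity) (by positivity),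
    ← ENNReal.ofReal_add (by positivity) (by positivity)]
  exact ENNReal.ofReal_le_ofReal h

theorem no_model {Γ Ω : Type} [Group Γ] [MeasurableSpace Ω] [MulAction Γ Ω] (μ : Measure Ω)
    [IsProbabilityMeasure μ]
    (hmp : ∀ g : Γ, MeasurePreserving (fun ω : Ω => g • ω) μ μ)
    (S : Set Γ) (hS : Subgroup.closure S = ⊤) (a b : Γ)
    (f : Ω → ℝ) (hf : Measurable f) (hf1 : ∀ ω, f ω ^ 2 = 1) (hfb : ∀ ω, f (b • ω) = f ω)
    (hfa : μ {ω | f (a • ω) ≠ - f ω} ≤ 1 / 10000)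
    (m : ℕ → Measure Ω) [∀ n, IsProbabilityMeasure (m n)] (hac : ∀ n, m n ≪ μ)
    (e : ℕ → ℝ≥0∞) (he : Tendsto e atTop (𝓝 0))
    (hinv1 : ∀ g ∈ S, ∀ (n : ℕ) (G : Ω → ℝ≥0∞) (M : ℝ≥0∞), Measurable G → (∀ x, G x ≤ M) →
      ∫⁻ x, G (g • x) ∂(m n) ≤ ∫⁻ x, G x ∂(m n) + e n * M)
    (hinv2 : ∀ g ∈ S, ∀ (n : ℕ) (G : Ω → ℝ≥0∞) (M : ℝ≥0∞), Measurable G → (∀ x, G x ≤ M) →
      ∫⁻ x, G x ∂(m n) ≤ ∫⁻ x, G (g • x) ∂(m n) + e n * M)
    (hkey : ∀ (n : ℕ) (H : Ω → ℝ) (C : ℝ), Measurable H → (∀ p, |H p| ≤ C) →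
      ∫⁻ p, ENNReal.ofReal (H p ^ 2) ∂(m n) ≤
        39 * ∫⁻ p, ENNReal.ofReal ((H (a • p) + H p) ^ 2) ∂(m n) +
        52 * ∫⁻ p, ENNReal.ofReal ((H (b • p) - H p) ^ 2) ∂(m n) +
        12 * (e n * ENNReal.ofReal (C ^ 2)))
    (X : Type) [TopologicalSpace X] [MeasurableSpace X] [MulAction Γ X] [BorelSpace X]
    [CompactSpace X] [MetrizableSpace X] (hcont : ∀ g : Γ, Continuous (fun x : X => g • x))
    (ν : Measure X) [IsProbabilityMeasure ν]
    (huniq : ∀ ν' : Measure X, IsProbabilityMeasure ν' →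
      (∀ g : Γ, Measure.map (fun x : X => g • x) ν' = ν') → ν' = ν)
    (φ : Ω → X) (ψ : X → Ω) (hφ : Measurable φ) (hψ : Measurable ψ) (hmap : Measure.map φ μ = ν)
    (heqv : ∀ g : Γ, ∀ᵐ ω ∂μ, φ (g • ω) = g • φ ω) (hinv : ∀ᵐ ω ∂μ, ψ (φ ω) = ω) : False := by
  classical
  -- the pushed-forward measures and a limit point
  let P : ℕ → ProbabilityMeasure X := fun n =>
    ⟨(m n).map φ, Measure.isProbabilityMeasure_map hφ.aemeasurable⟩
  let U : Ultrafilter ℕ := Ultrafilter.of atTop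
  have hU : (U : Filter ℕ) ≤ atTop := Ultrafilter.of_le _
  obtain ⟨ν', -, hν'⟩ := isCompact_univ.ultrafilter_le_nhds (U.map P) (by simp)
  have hlim : Tendsto P U (𝓝 ν') := hν'
  have hlimk : ∀ k : X → ℝ≥0, Continuous k →
      Tendsto (fun n => ∫⁻ ω, (k (φ ω) : ℝ≥0∞) ∂(m n)) U
        (𝓝 (∫⁻ x, (k x : ℝ≥0∞) ∂(ν' : Measure X))) := by
    intro k hk
    have := ProbabilityMeasure.tendsto_iff_forall_lintegral_tendsto.1 hlim
      (BoundedContinuousFunction.mkOfCompact ⟨k, hk⟩)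
    refine this.congr fun n => ?_
    exact lintegral_map (f := fun x => (k x : ℝ≥0∞)) (by fun_prop) hφ
  have heU : ∀ M : ℝ≥0∞, M ≠ ∞ → Tendsto (fun n => e n * M) U (𝓝 0) := by
    intro M hM
    have := ENNReal.Tendsto.mul_const (he.mono_left hU) (b := M) (Or.inr hM)
    simpa using this
  -- the limit point is invariant
  have hgen : ∀ g ∈ S, Measure.map (fun x : X => g • x) (ν' : Measure X) = ν' := by
    intro g hg
    have : IsProbabilityMeasure (Measure.map (fun x : X => g • x) (ν' : Measure X)) :=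
      Measure.isProbabilityMeasure_map (hcont g).measurable.aemeasurable
    apply ext_of_forall_lintegral_eq_of_IsFiniteMeasure
    intro u
    rw [lintegral_map (by fun_prop) (hcont g).measurable]
    have l1 := hlimk (fun x => u (g • x)) (u.continuous.comp (hcont g))
    have l2 := hlimk u u.continuous
    obtain ⟨M, hM⟩ : ∃ M : ℝ≥0, ∀ x, u x ≤ M := ⟨nndist 0 u, fun x =>
      BoundedContinuousFunction.NNReal.upper_bound u x |>.trans (by rw [nndist_comm])⟩
    have hM' : ∀ ω, ((u (φ ω) : ℝ≥0) : ℝ≥0∞) ≤ M := fun ω => by exact_mod_cast hM _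
    have hmeas : Measurable fun ω => ((u (φ ω) : ℝ≥0) : ℝ≥0∞) := by fun_prop
    have hae : ∀ n, ∫⁻ ω, (u (g • φ ω) : ℝ≥0∞) ∂(m n) = ∫⁻ ω, (u (φ (g • ω)) : ℝ≥0∞) ∂(m n) := by
      intro n
      apply lintegral_congr_ae
      filter_upwards [(hac n).ae_le (heqv g)] with ω hω
      rw [hω]
    apply le_antisymm
    · have l3 := l2.add (heU M (by simp))
      rw [add_zero] at l3
      refine le_of_tendsto_of_tendsto' l1 l3 fun n => ?_
      rw [hae]
      exact hinv1 g hg n _ M hmeas hM'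
    · have l3 := l1.add (heU M (by simp))
      rw [add_zero] at l3
      refine le_of_tendsto_of_tendsto' l2 l3 fun n => ?_
      rw [hae]
      exact hinv2 g hg n _ M hmeas hM'
  have hall : ∀ g : Γ, Measure.map (fun x : X => g • x) (ν' : Measure X) = ν' := by
    intro g
    have hg : g ∈ Subgroup.closure S := by rw [hS]; trivial
    induction hg using Subgroup.closure_induction with
    | mem x hx => exact hgen x hx
    | one => simp
    | mul x y _ _ hx hy =>
      have : (fun z : X => (x * y) • z) = (fun z : X => x • z) ∘ (fun z : X => y • z) := by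
        funext z; simp [mul_smul]
      rw [this, ← Measure.map_map (hcont x).measurable (hcont y).measurable, hy, hx]
    | inv x _ hx =>
      nth_rewrite 1 [← hx]
      rw [Measure.map_map (hcont _).measurable (hcont x).measurable]
      have : ((fun z : X => x⁻¹ • z) ∘ (fun z : X => x • z)) = id := by
        funext z; simp
      rw [this, Measure.map_id]
  have hνν : (ν' : Measure X) = ν := huniq _ inferInstance hall
  -- a continuous approximation of `f`
  have hfabs : ∀ ω, |f ω| = 1 := fun ω => by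
    have := hf1 ω
    rw [← sq_abs] at this
    nlinarith [abs_nonneg (f ω)]
  have hfψ : MemLp (fun x => f (ψ x)) (ENNReal.ofReal 2) ν :=
    MemLp.of_bound (hf.comp hψ).aestronglyMeasurable 1
      (Eventually.of_forall fun x => by rw [Real.norm_eq_abs, hfabs])
  obtain ⟨h, hh, -⟩ := hfψ.exists_boundedContinuous_integral_rpow_sub_le (by norm_num)
    (ε := 1 / 10000) (by norm_num)
  have hhm : Measurable h := h.continuous.measurable
  have hhb : ∀ x, |h x| ≤ ‖h‖ := fun x => h.norm_coe_le_norm x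
  set d := ∫⁻ ω, ENNReal.ofReal ((h (φ ω) - f ω) ^ 2) ∂μ with hd
  have hdle : d ≤ 1 / 10000 := by
    have e1 : d = ∫⁻ x, ENNReal.ofReal ((h x - f (ψ x)) ^ 2) ∂ν := by
      rw [← hmap, lintegral_map (by fun_prop) hφ]
      apply lintegral_congr_ae
      filter_upwards [hinv] with ω hω
      rw [hω]
    have e2 : ∀ x, ‖f (ψ x) - h x‖ ^ (2 : ℝ) = (h x - f (ψ x)) ^ 2 := fun x => by
      rw [Real.rpow_two, Real.norm_eq_abs, sq_abs]; ring
    simp only [e2] at hh
    rw [e1, ← ofReal_integral_eq_lintegral_ofReal]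
    · refine (ENNReal.ofReal_le_ofReal hh).trans (le_of_eq ?_)
      rw [ENNReal.ofReal_div_of_pos (by norm_num)]; simp
    · refine Integrable.of_bound (by fun_prop) ((‖h‖ + 1) ^ 2) (Eventually.of_forall fun x => ?_)
      rw [Real.norm_eq_abs, abs_pow]
      refine pow_le_pow_left₀ (abs_nonneg _) ?_ 2
      refine (abs_sub _ _).trans ?_
      rw [hfabs]; linarith [hhb x]
    · exact Eventually.of_forall fun x => sq_nonneg _
  have hdg : ∀ g : Γ, ∫⁻ ω, ENNReal.ofReal ((h (φ (g • ω)) - f (g • ω)) ^ 2) ∂μ = d := fun g =>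
    (hmp g).lintegral_comp (f := fun ω => ENNReal.ofReal ((h (φ ω) - f ω) ^ 2)) (by fun_prop)
  have hdm : Measurable fun ω => ENNReal.ofReal ((h (φ ω) - f ω) ^ 2) := by fun_prop
  have hbad : MeasurableSet {ω | f (a • ω) ≠ - f ω} :=
    (measurableSet_eq_fun (hf.comp (hmp a).measurable) hf.neg).compl
  refine arith_final (N := ∫⁻ ω, ENNReal.ofReal (h (φ ω) ^ 2) ∂μ)
    (Da := ∫⁻ ω, ENNReal.ofReal ((h (φ (a • ω)) + h (φ ω)) ^ 2) ∂μ)
    (Db := ∫⁻ ω, ENNReal.ofReal ((h (φ (b • ω)) - h (φ ω)) ^ 2) ∂μ) hdle hfa ?_ ?_ ?_ ?_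
  · rw [hd, ← lintegral_const_mul _ hdm, ← lintegral_const_mul' _ _ (by simp),
      ← lintegral_add_left (hdm.const_mul _)]
    calc (1 : ℝ≥0∞) = ∫⁻ _, ENNReal.ofReal 1 ∂μ := by simp
      _ ≤ _ := by
        refine lintegral_mono fun ω => ofReal_le_two (sq_nonneg _) (sq_nonneg _) ?_
        nlinarith [hf1 ω, sq_nonneg (2 * h (φ ω) - f ω)]
  · nth_rewrite 1 [← hdg a]
    rw [hd, ← lintegral_indicator_one hbad, ← lintegral_const_mul _ hdm,
      ← lintegral_const_mul' _ _ (by simp), ← lintegral_const_mul' _ _ (by simp),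
      ← lintegral_add_right _ (hdm.const_mul _),
      ← lintegral_add_right _ ((measurable_one.indicator hbad).const_mul _)]
    refine lintegral_mono fun ω => ?_
    by_cases hω : ω ∈ {ω | f (a • ω) ≠ - f ω}
    · rw [indicator_of_mem hω, Pi.one_apply, ← ENNReal.ofReal_one]
      refine ofReal_le_three (sq_nonneg _) (sq_nonneg _) zero_le_one ?_
      have h1 : (f (a • ω) + f ω) ^ 2 ≤ 4 := by
        nlinarith [hf1 ω, hf1 (a • ω), sq_nonneg (f (a • ω) - f ω)]
      nlinarith [sq_nonneg ((h (φ (a • ω)) - f (a • ω)) - (h (φ ω) - f ω)),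
        sq_nonneg ((h (φ (a • ω)) - f (a • ω)) - (f (a • ω) + f ω)),
        sq_nonneg ((h (φ ω) - f ω) - (f (a • ω) + f ω))]
    · rw [indicator_of_notMem hω, ← ENNReal.ofReal_zero]
      refine ofReal_le_three (sq_nonneg _) (sq_nonneg _) le_rfl ?_
      have h1 : f (a • ω) = - f ω := by simpa using hω
      rw [h1]
      nlinarith [sq_nonneg ((h (φ (a • ω)) + f ω) - (h (φ ω) - f ω)),
        sq_nonneg (h (φ (a • ω)) + f ω), sq_nonneg (h (φ ω) - f ω)]
  · nth_rewrite 1 [← hdg b]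
    rw [hd, ← lintegral_const_mul _ hdm, ← lintegral_const_mul' _ _ (by simp),
      ← lintegral_add_right _ (hdm.const_mul _)]
    refine lintegral_mono fun ω => ofReal_le_two (sq_nonneg _) (sq_nonneg _) ?_
    rw [hfb]
    nlinarith [sq_nonneg ((h (φ (b • ω)) - f ω) + (h (φ ω) - f ω))]
  · have hc := h.continuous
    have l0 := hlimk (fun x => Real.toNNReal (h x ^ 2)) (by fun_prop)
    have la := hlimk (fun x => Real.toNNReal ((h (a • x) + h x) ^ 2))
      (continuous_real_toNNReal.comp (((hc.comp (hcont a)).add hc).pow 2))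
    have lb := hlimk (fun x => Real.toNNReal ((h (b • x) - h x) ^ 2))
      (continuous_real_toNNReal.comp (((hc.comp (hcont b)).sub hc).pow 2))
    rw [hνν, ← hmap, lintegral_map _ hφ] at l0 la lb
    rotate_left
    · exact (continuous_real_toNNReal.comp
        (((hc.comp (hcont b)).sub hc).pow 2)).measurable.coe_nnreal_ennreal
    · exact (continuous_real_toNNReal.comp
        (((hc.comp (hcont a)).add hc).pow 2)).measurable.coe_nnreal_ennreal
    · fun_prop
    have ea : ∀ m' : Measure Ω, m' ≪ μ →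
        ∫⁻ ω, ((Real.toNNReal ((h (a • φ ω) + h (φ ω)) ^ 2) : ℝ≥0) : ℝ≥0∞) ∂m' =
        ∫⁻ ω, ENNReal.ofReal ((h (φ (a • ω)) + h (φ ω)) ^ 2) ∂m' := by
      intro m' hm'
      apply lintegral_congr_ae
      filter_upwards [hm'.ae_le (heqv a)] with ω hω
      rw [hω]; rfl
    have eb : ∀ m' : Measure Ω, m' ≪ μ →
        ∫⁻ ω, ((Real.toNNReal ((h (b • φ ω) - h (φ ω)) ^ 2) : ℝ≥0) : ℝ≥0∞) ∂m' =
        ∫⁻ ω, ENNReal.ofReal ((h (φ (b • ω)) - h (φ ω)) ^ 2) ∂m' := by
      intro m' hm'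
      apply lintegral_congr_ae
      filter_upwards [hm'.ae_le (heqv b)] with ω hω
      rw [hω]; rfl
    rw [ea μ (by rfl)] at la
    rw [eb μ (by rfl)] at lb
    simp only [ea _ (hac _)] at la
    simp only [eb _ (hac _)] at lb
    have l3 := ((ENNReal.Tendsto.const_mul (a := 39) la (Or.inr (by simp))).add
      (ENNReal.Tendsto.const_mul (a := 52) lb (Or.inr (by simp)))).add
      (ENNReal.Tendsto.const_mul (a := 12) (heU (ENNReal.ofReal (‖h‖ ^ 2)) (by simp))
        (Or.inr (by simp)))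
    rw [mul_zero, add_zero] at l3
    refine le_of_tendsto_of_tendsto' l0 l3 fun n => ?_
    exact hkey n (fun ω => h (φ ω)) ‖h‖ (hhm.comp hφ) fun ω => hhb _

end Pool.Agent.P.MP_11b517_an
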