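import Pool.Agent.P.MP_11b517_an.Key
import Pool.Agent.P.MP_11b517_an.Model

/-! The base system and the paradoxical weight. -/

set_option autoImplicit false

open MeasureTheory Set Function TopologicalSpace Filter Topology ProbabilityTheory
open scoped ENNReal NNReal

namespace Pool.Agent.P.MP_11b517_an

noncomputable section

/-- Paradoxical weights exist for two distinct free generators. -/
lemma exists_para {ι : Type} {i j : ι} (hij : i ≠ j) :
    ∃ w : FreeGroup ι → ℝ, Para (FreeGroup.of i) (FreeGroup.of j) w := by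
  classical
  let e : ℕ ⊕ ℕ ≃ ℕ := Equiv.natSumNatEquivNat
  let A : Equiv.Perm (ℕ ⊕ (ℕ ⊕ ℕ)) :=
    { toFun := Sum.elim (fun n => Sum.inr (e.symm n)) (fun y => Sum.inl (e y))
      invFun := Sum.elim (fun n => Sum.inr (e.symm n)) (fun y => Sum.inl (e y))
      left_inv := by rintro (n | y) <;> simp
      right_inv := by rintro (n | y) <;> simp }
  let B : Equiv.Perm (ℕ ⊕ (ℕ ⊕ ℕ)) :=
    { toFun := Sum.elim (fun n => Sum.inr (Sum.inl n))
        (Sum.elim (fun n => Sum.inr (Sum.inr n)) (fun n => Sum.inl n))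
      invFun := Sum.elim (fun n => Sum.inr (Sum.inr n))
        (Sum.elim (fun n => Sum.inl n) (fun n => Sum.inr (Sum.inl n)))
      left_inv := by rintro (n | n | n) <;> simp
      right_inv := by rintro (n | n | n) <;> simp }
  let ρ : FreeGroup ι →* Equiv.Perm (ℕ ⊕ (ℕ ⊕ ℕ)) :=
    FreeGroup.lift fun k => if k = i then A else B
  have hi : ρ (FreeGroup.of i) = A := by simp [ρ]
  have hj : ρ (FreeGroup.of j) = B := by simp [ρ, hij.symm]
  let v : ℕ ⊕ (ℕ ⊕ ℕ) → ℝ := Sum.elim (fun _ => 1) (fun _ => 0)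
  refine ⟨fun γ => v (ρ γ (Sum.inl 0)), ?_, ?_, ?_⟩
  · intro γ
    rcases ρ γ (Sum.inl 0) with n | n <;> simp [v]
  · intro γ
    simp only [map_mul, map_inv, hi, Equiv.Perm.mul_apply]
    rcases ρ γ (Sum.inl 0) with n | n
    · have : A⁻¹ (Sum.inl n) = Sum.inr (e.symm n) := rfl
      rw [this]; simp [v]
    · have : A⁻¹ (Sum.inr n) = Sum.inl (e n) := rfl
      rw [this]; simp [v]
  · intro γ
    simp only [map_mul, map_inv, hj, Equiv.Perm.mul_apply]
    rcases ρ γ (Sum.inl 0) with n | n | n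
    · have h1 : B⁻¹ (Sum.inl n) = Sum.inr (Sum.inr n) := rfl
      have h2 : B (Sum.inl n) = Sum.inr (Sum.inl n) := rfl
      rw [h1, h2]; simp [v]
    · have h1 : B⁻¹ (Sum.inr (Sum.inl n)) = Sum.inl n := rfl
      have h2 : B (Sum.inr (Sum.inl n)) = Sum.inr (Sum.inr n) := rfl
      rw [h1, h2]; simp [v]
    · have h1 : B⁻¹ (Sum.inr (Sum.inr n)) = Sum.inr (Sum.inl n) := rfl
      have h2 : B (Sum.inr (Sum.inr n)) = Sum.inl n := rfl
      rw [h1, h2]; simp [v]

section Avg

variable {X : Type} [MeasurableSpace X]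

/-- `m` is almost invariant under `R`, with error `e`. -/
def AlmostInv (m : Measure X) (R : X → X) (e : ℝ≥0∞) : Prop :=
  ∀ (G : X → ℝ≥0∞) (M : ℝ≥0∞), Measurable G → (∀ x, G x ≤ M) →
    (∫⁻ x, G (R x) ∂m ≤ ∫⁻ x, G x ∂m + e * M) ∧ (∫⁻ x, G x ∂m ≤ ∫⁻ x, G (R x) ∂m + e * M)

lemma AlmostInv.of_ae {m : Measure X} {R : X → X} (h : ∀ᵐ x ∂m, R x = x) (e : ℝ≥0∞) :
    AlmostInv m R e := by
  intro G M _ _
  have : ∫⁻ x, G (R x) ∂m = ∫⁻ x, G x ∂m := by
    apply lintegral_congr_ae
    filter_upwards [h] with x hx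
    rw [hx]
  rw [this]
  exact ⟨le_self_add, le_self_add⟩

lemma AlmostInv.prod {Γ : Type} [Group Γ] [Countable Γ] {m : Measure X} {R : X → X}
    (hR : Measurable R) {e : ℝ≥0∞} (h : AlmostInv m R e) (g : Γ) :
    AlmostInv (m.prod (lam Γ)) (fun p => (R p.1, shift g p.2)) e := by
  intro G M hG hM
  have hs := measurePreserving_shift g
  have hsm := hs.measurable
  have h1 : ∫⁻ p, G (R p.1, shift g p.2) ∂(m.prod (lam Γ)) =
      ∫⁻ x, (∫⁻ ω, G (R x, ω) ∂(lam Γ)) ∂m := by
    rw [lintegral_prod _ (by fun_prop)]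
    congr 1; funext x
    exact hs.lintegral_comp (f := fun ω => G (R x, ω)) (by fun_prop)
  rw [h1, lintegral_prod _ hG.aemeasurable]
  refine h (fun x => ∫⁻ ω, G (x, ω) ∂(lam Γ)) M hG.lintegral_prod_right' fun x => ?_
  calc _ ≤ ∫⁻ _, M ∂(lam Γ) := lintegral_mono fun ω => hM _
    _ = M := by simp

/-- Cesaro average of the images of a measure. -/
def avg (T : X → X) (ρ : Measure X) (n : ℕ) : Measure X :=
  ((n + 1 : ℕ) : ℝ≥0∞)⁻¹ • ∑ k ∈ Finset.range (n + 1), ρ.map T^[k]

lemma lintegral_avg {T : X → X} (hT : Measurable T) (ρ : Measure X) (n : ℕ) {G : X → ℝ≥0∞}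
    (hG : Measurable G) : ∫⁻ x, G x ∂(avg T ρ n) =
      ((n + 1 : ℕ) : ℝ≥0∞)⁻¹ * ∑ k ∈ Finset.range (n + 1), ∫⁻ x, G (T^[k] x) ∂ρ := by
  rw [avg, lintegral_smul_measure, lintegral_finsetSum_measure, smul_eq_mul]
  congr 1
  refine Finset.sum_congr rfl fun k _ => ?_
  rw [lintegral_map hG (hT.iterate k)]

lemma isProb_avg {T : X → X} (hT : Measurable T) (ρ : Measure X) [IsProbabilityMeasure ρ]
    (n : ℕ) : IsProbabilityMeasure (avg T ρ n) := by
  constructor
  rw [← lintegral_one, lintegral_avg hT ρ n measurable_const]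
  simp only [lintegral_const, measure_univ, mul_one, Finset.sum_const, Finset.card_range,
    nsmul_eq_mul]
  exact ENNReal.inv_mul_cancel (by simp) (by simp)

lemma almostInv_avg {T : X → X} (hT : Measurable T) (ρ : Measure X) [IsProbabilityMeasure ρ]
    (n : ℕ) : AlmostInv (avg T ρ n) T ((n + 1 : ℕ) : ℝ≥0∞)⁻¹ := by
  intro G M hG hM
  rw [lintegral_avg hT ρ n hG, lintegral_avg hT ρ n (G := fun x => G (T x)) (hG.comp hT),
    ← mul_add, ← mul_add]
  set c : ℕ → ℝ≥0∞ := fun k => ∫⁻ x, G (T^[k] x) ∂ρ with hc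
  have hcM : ∀ k, c k ≤ M := fun k => by
    calc c k ≤ ∫⁻ _, M ∂ρ := lintegral_mono fun x => hM _
      _ = M := by simp
  have h1 : ∀ k, ∫⁻ x, G (T (T^[k] x)) ∂ρ = c (k + 1) := fun k => by
    simp only [hc, Function.iterate_succ_apply']
  simp only [h1]
  have h2 : ∑ k ∈ Finset.range (n + 1), c (k + 1) + c 0 =
      ∑ k ∈ Finset.range (n + 1), c k + c (n + 1) := by
    rw [← Finset.sum_range_succ', ← Finset.sum_range_succ]
  constructor
  · gcongr
    exact le_self_add.trans (h2.le.trans (by gcongr; exact hcM _))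
  · gcongr
    exact le_self_add.trans (h2.ge.trans (by gcongr; exact hcM _))

lemma avg_ac {T : X → X} {μ ρ : Measure X} (hT : MeasurePreserving T μ μ) (h : ρ ≪ μ) (n : ℕ) :
    avg T ρ n ≪ μ := by
  refine Measure.AbsolutelyContinuous.mk fun s hs h0 => ?_
  rw [avg, Measure.smul_apply, Measure.finsetSum_apply, Finset.sum_eq_zero, smul_zero]
  intro k _
  rw [Measure.map_apply (hT.measurable.iterate k) hs]
  apply h
  rw [(hT.iterate k).measure_preimage hs.nullMeasurableSet, h0]

lemma avg_ae {T : X → X} (hT : Measurable T) {ρ : Measure X} (n : ℕ) {s : Set X}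
    (hs : MeasurableSet s) (h : ∀ k < n + 1, ∀ᵐ x ∂ρ, T^[k] x ∈ s) :
    ∀ᵐ x ∂(avg T ρ n), x ∈ s := by
  rw [ae_iff]
  change avg T ρ n sᶜ = 0
  rw [avg, Measure.smul_apply, Measure.finsetSum_apply, Finset.sum_eq_zero, smul_zero]
  intro k hk
  rw [Measure.map_apply (hT.iterate k) hs.compl]
  exact h k (Finset.mem_range.1 hk)

end Avg

/-- the base space -/
abbrev Base : Type := UnitAddCircle × ZMod 2

instance : IsProbabilityMeasure (volume : Measure UnitAddCircle) := ⟨UnitAddCircle.measure_univ⟩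

/-- uniform measure on two points -/
def unif : Measure (ZMod 2) := Measure.addHaarMeasure ⊤

instance : unif.IsAddHaarMeasure := by unfold unif; infer_instance

instance : IsProbabilityMeasure unif :=
  ⟨by unfold unif; exact Measure.addHaarMeasure_self (K₀ := ⊤)⟩

/-- the base measure -/
def mu0 : Measure Base := (volume : Measure UnitAddCircle).prod unif

instance : IsProbabilityMeasure mu0 := by unfold mu0; infer_instance

/-- an irrational angle -/
def alpha : UnitAddCircle := ((√2 : ℝ) : UnitAddCircle)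

lemma ergodic_alpha : Ergodic (fun x : UnitAddCircle => x + alpha) := by
  rw [AddCircle.ergodic_add_right, addOrderOf_eq_zero_iff, alpha,
    AddCircle.isOfFinAddOrder_iff_exists_rat_eq_div]
  rintro ⟨q, hq⟩
  exact irrational_sqrt_two ⟨q, by simpa using hq⟩

/-- the rotation -/
def rotT : Equiv.Perm Base := Equiv.prodCongr (Equiv.addRight alpha) (Equiv.refl _)

lemma rotT_apply (p : Base) : rotT p = (p.1 + alpha, p.2) := rfl

lemma rotT_inv_apply (p : Base) : rotT⁻¹ p = (p.1 + -alpha, p.2) := rfl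

lemma rotT_iterate (k : ℕ) (p : Base) : rotT^[k] p = (p.1 + k • alpha, p.2) := by
  induction k with
  | zero => simp
  | succ k ih => rw [Function.iterate_succ_apply', ih, rotT_apply, succ_nsmul, add_assoc]

lemma mp_rotT : MeasurePreserving rotT mu0 mu0 :=
  (measurePreserving_add_right volume alpha).prod (MeasurePreserving.id unif)

lemma mp_rotT_inv : MeasurePreserving (rotT⁻¹ : Equiv.Perm Base) mu0 mu0 :=
  (measurePreserving_add_right volume (-alpha)).prod (MeasurePreserving.id unif)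

open Classical in
/-- the flip outside `A` -/
def flipFun (A : Set UnitAddCircle) (p : Base) : Base := (p.1, p.2 + if p.1 ∈ A then 0 else 1)

lemma flipFun_invol (A : Set UnitAddCircle) : Involutive (flipFun A) := by
  rintro ⟨x, σ⟩
  have h11 : (1 + 1 : ZMod 2) = 0 := by decide
  simp only [flipFun, Prod.mk.injEq, true_and]
  split_ifs
  · simp
  · rw [add_assoc, h11, add_zero]

/-- the flip outside `A` as a permutation -/
def flipS (A : Set UnitAddCircle) : Equiv.Perm Base := (flipFun_invol A).toPerm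

lemma flipS_apply (A : Set UnitAddCircle) (p : Base) : flipS A p = flipFun A p := rfl

lemma flipS_inv_apply (A : Set UnitAddCircle) (p : Base) : (flipS A)⁻¹ p = flipFun A p := rfl

lemma mp_flip {A : Set UnitAddCircle} (hA : MeasurableSet A) :
    MeasurePreserving (flipFun A) mu0 mu0 := by
  classical
  refine (MeasurePreserving.id (volume : Measure UnitAddCircle)).skew_product
    (g := fun x (σ : ZMod 2) => σ + if x ∈ A then 0 else 1) ?_ ?_
  · refine measurable_snd.add ?_
    exact Measurable.ite (measurable_fst hA) measurable_const measurable_const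
  · exact Eventually.of_forall fun x => map_add_right_eq_self _ _

lemma base_ergodic {A : Set UnitAddCircle} (hA1 : volume A < 1)
    {E : Set Base} (hE : MeasurableSet E) (hT : ∀ p, rotT p ∈ E ↔ p ∈ E)
    (hS : ∀ p, flipFun A p ∈ E ↔ p ∈ E) : mu0 E = 0 ∨ mu0 E = 1 := by
  have h01 : ∀ σ : ZMod 2, volume ((fun x => (x, σ)) ⁻¹' E) = 0 ∨
      volume ((fun x => (x, σ)) ⁻¹' E) = 1 := by
    intro σ
    refine ergodic_alpha.toPreErgodic.prob_eq_zero_or_one (measurable_prodMk_right hE) ?_
    ext x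
    exact hT (x, σ)
  have hflip : ∀ σ : ZMod 2, volume ((fun x => (x, σ)) ⁻¹' E) = 0 →
      volume ((fun x => (x, σ + 1)) ⁻¹' E) = 0 := by
    intro σ h0
    rcases h01 (σ + 1) with h | h
    · exact h
    · exfalso
      have hsub : (fun x => (x, σ + 1)) ⁻¹' E ⊆ A ∪ (fun x => (x, σ)) ⁻¹' E := by
        intro x hx
        by_cases hxA : x ∈ A
        · exact Or.inl hxA
        · right
          have := hS (x, σ)
          simp only [flipFun, if_neg hxA] at this
          exact this.1 hx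
      have := (measure_mono (μ := volume) hsub).trans (measure_union_le _ _)
      rw [h, h0, add_zero] at this
      exact absurd hA1 (not_lt.2 this)
  have hσ : ∀ σ : ZMod 2, σ = 0 ∨ σ = 0 + 1 := by decide
  have hσ' : ∀ σ τ : ZMod 2, τ = σ ∨ τ = σ + 1 := by decide
  rw [mu0, Measure.prod_apply_symm hE]
  by_cases h : ∃ σ : ZMod 2, volume ((fun x => (x, σ)) ⁻¹' E) = 0
  · obtain ⟨σ, h0⟩ := h
    left
    have : ∀ τ : ZMod 2, volume ((fun x => (x, τ)) ⁻¹' E) = 0 := fun τ => by
      rcases hσ' σ τ with rfl | rfl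
      · exact h0
      · exact hflip _ h0
    simp [this]
  · right
    have : ∀ τ : ZMod 2, volume ((fun x => (x, τ)) ⁻¹' E) = 1 := fun τ =>
      (h01 τ).resolve_left fun h0 => h ⟨τ, h0⟩
    simp [this]

/-- A small set that carries almost invariant measures. -/
lemma exists_small : ∃ (A : Set UnitAddCircle) (m : ℕ → Measure Base), MeasurableSet A ∧
    volume A ≤ 1 / 10000 ∧ (∀ n, IsProbabilityMeasure (m n)) ∧ (∀ n, m n ≪ mu0) ∧
    (∀ n, ∀ᵐ p ∂(m n), p.1 ∈ A) ∧ ∀ n, AlmostInv (m n) rotT ((n + 1 : ℕ) : ℝ≥0∞)⁻¹ := by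
  obtain ⟨ε, hε, hsum⟩ := ENNReal.exists_pos_sum_of_countable (ε := 1 / 10000) (by simp) ℕ
  let I : ℕ → Set UnitAddCircle := fun n => Metric.closedBall 0 (ε n / (2 * (n + 1)))
  have hIm : ∀ n, MeasurableSet (I n) := fun n => measurableSet_closedBall
  have hIpos : ∀ n, volume (I n) ≠ 0 := fun n =>
    (Metric.measure_closedBall_pos volume _ (by have := hε n; positivity)).ne'
  have hIle : ∀ n : ℕ, ((n + 1 : ℕ) : ℝ≥0∞) * volume (I n) ≤ ε n := by
    intro n
    simp only [I]
    rw [AddCircle.volume_closedBall, ← ENNReal.ofReal_natCast, ← ENNReal.ofReal_mul (by positivity),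
      ← ENNReal.ofReal_coe_nnreal]
    apply ENNReal.ofReal_le_ofReal
    refine (mul_le_mul_of_nonneg_left (min_le_right _ _) (by positivity)).trans (le_of_eq ?_)
    push_cast
    field_simp
  let A : Set UnitAddCircle := ⋃ n : ℕ, ⋃ k ∈ Finset.range (n + 1),
    (fun x => x + -(k • alpha)) ⁻¹' I n
  have hAm : MeasurableSet A := MeasurableSet.iUnion fun n =>
    Finset.measurableSet_biUnion _ fun k _ => measurable_add_const _ (hIm n)
  have hJ : ∀ n, mu0 (I n ×ˢ univ) ≠ 0 := fun n => by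
    rw [mu0, Measure.prod_prod]; simpa using hIpos n
  have hP : ∀ n, IsProbabilityMeasure (mu0[|I n ×ˢ univ]) := fun n =>
    cond_isProbabilityMeasure (hJ n)
  refine ⟨A, fun n => avg rotT (mu0[|I n ×ˢ univ]) n, hAm, ?_,
    fun n => isProb_avg mp_rotT.measurable _ n,
    fun n => avg_ac mp_rotT cond_absolutelyContinuous n, fun n => ?_,
    fun n => almostInv_avg mp_rotT.measurable _ n⟩
  · refine (measure_iUnion_le _).trans (le_trans (ENNReal.tsum_le_tsum fun n => ?_) hsum.le)
    refine (measure_biUnion_finset_le _ _).trans (le_trans (le_of_eq ?_) (hIle n))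
    simp [measure_preimage_add_right]
  · refine avg_ae mp_rotT.measurable n (s := {p : Base | p.1 ∈ A}) (measurable_fst hAm) ?_
    intro k hk
    filter_upwards [ae_cond_mem (μ := mu0) ((hIm n).prod MeasurableSet.univ)] with p hp
    rw [rotT_iterate]
    simp only [A, mem_iUnion]
    exact ⟨n, k, Finset.mem_range.2 hk, by simpa using hp.1⟩

end

end Pool.Agent.P.MP_11b517_an
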