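import Pool.Agent.P.MP_11b517_an.Walsh

/-! The key spectral inequality on a product with the Bernoulli shift. -/

set_option autoImplicit false

open MeasureTheory Set Function TopologicalSpace
open scoped ENNReal NNReal

namespace Pool.Agent.P.MP_11b517_an

noncomputable section

variable {Γ : Type} [Group Γ] [Countable Γ]

/-- A paradoxical weight for the pair `a`, `b`. -/
structure Para (a b : Γ) (w : Γ → ℝ) : Prop where
  nonneg : ∀ γ, 0 ≤ w γ
  cover : ∀ γ, 1 ≤ w γ + w (a⁻¹ * γ)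
  pack : ∀ γ, w γ + w (b⁻¹ * γ) + w (b * γ) ≤ 1

omit [Countable Γ] in
lemma Para.le_one {a b : Γ} {w : Γ → ℝ} (h : Para a b w) (γ : Γ) : w γ ≤ 1 := by
  have := h.pack γ
  have := h.nonneg (b⁻¹ * γ)
  have := h.nonneg (b * γ)
  linarith

lemma Para.qw_cover {a b : Γ} {w : Γ → ℝ} (h : Para a b w) (u : Cfg Γ → ℝ) :
    qw (fun _ => 1) u ≤ qw w u + qw (fun γ => w (a⁻¹ * γ)) u := by
  rw [← qw_add h.nonneg (fun γ => h.nonneg _)]
  exact qw_mono h.cover u

lemma Para.qw_pack {a b : Γ} {w : Γ → ℝ} (h : Para a b w) (u : Cfg Γ → ℝ) :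
    qw w u + qw (fun γ => w (b⁻¹ * γ)) u + qw (fun γ => w (b * γ)) u ≤ qw (fun _ => 1) u := by
  rw [← qw_add h.nonneg (fun γ => h.nonneg _), ← qw_add (fun γ => add_nonneg (h.nonneg _)
    (h.nonneg _)) (fun γ => h.nonneg _)]
  exact qw_mono h.pack u

omit [Group Γ] in
lemma nrm_sub_comm (u v : Cfg Γ → ℝ) :
    nrm (fun ω => u ω - v ω) = nrm (fun ω => v ω - u ω) := by
  unfold nrm
  congr 1; funext ω; congr 1; ring

omit [Group Γ] in
lemma coef_empty_le {u : Cfg Γ → ℝ} (hu : MemLp u 2 (lam Γ)) :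
    ENNReal.ofReal (coef ∅ u ^ 2) ≤ nrm u := by
  rw [← qw_one_add hu]; exact le_add_self

lemma Para.fiber_a {a b : Γ} {w : Γ → ℝ} (h : Para a b w) {u : Cfg Γ → ℝ} (hum : Measurable u)
    (hu : MemLp u 2 (lam Γ)) :
    4 * nrm u ≤ 9 * qw w u + 21 * nrm (fun ω => u (shift a ω) + u ω) := by
  have h1 := qw_one_add hu
  have h2 := h.qw_cover u
  rw [← qw_shift a w hum] at h2
  have h3 := qw_le_add h.nonneg h.le_one (memLp_shift a hu) hu
  have h4 : 4 * ENNReal.ofReal (coef ∅ u ^ 2) ≤ nrm (fun ω => u (shift a ω) + u ω) := by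
    refine le_trans (le_of_eq ?_) (coef_empty_le ((memLp_shift a hu).add hu))
    have h5 := coef_add (memLp_shift a hu) hu ∅
    have h6 := coef_shift a ∅ hum
    have h7 : (Equiv.mulLeft a).finsetCongr (∅ : Finset Γ) = ∅ := by simp
    rw [h7] at h6
    rw [h6] at h5
    have e4 : (4 : ℝ≥0∞) = ENNReal.ofReal 4 := by simp
    rw [e4, ← ENNReal.ofReal_mul (by norm_num)]
    congr 1
    change _ = coef ∅ (fun ω => u (shift a ω) + u ω) ^ 2
    rw [h5]; ring
  calc 4 * nrm u = 4 * qw (fun _ => 1) u + 4 * ENNReal.ofReal (coef ∅ u ^ 2) := by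
        rw [← h1, mul_add]
    _ ≤ 4 * (qw w u + qw w (fun ω => u (shift a ω))) + nrm (fun ω => u (shift a ω) + u ω) := by
        gcongr
    _ ≤ 4 * qw w u + (5 * qw w u + 20 * nrm (fun ω => u (shift a ω) + u ω))
          + nrm (fun ω => u (shift a ω) + u ω) := by
        rw [mul_add]; gcongr
    _ = _ := by ring

section Prod

variable {X : Type} [MeasurableSpace X]

omit [Group Γ] in
lemma measurable_coef {H : X × Cfg Γ → ℝ} (hH : Measurable H) (F : Finset Γ) :
    Measurable fun x => coef F (fun ω => H (x, ω)) := by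
  have : StronglyMeasurable (fun p : X × Cfg Γ => H p * chi F p.2) :=
    (hH.mul ((chi F).continuous.measurable.comp measurable_snd)).stronglyMeasurable
  exact (this.integral_prod_right' (ν := lam Γ)).measurable

omit [Group Γ] in
lemma measurable_qw {H : X × Cfg Γ → ℝ} (hH : Measurable H) (w : Γ → ℝ) :
    Measurable fun x => qw w (fun ω => H (x, ω)) := by
  unfold qw
  refine Measurable.ennreal_tsum fun F => ?_
  exact (((measurable_coef hH F).pow_const 2).const_mul _).ennreal_ofReal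

omit [Group Γ] in
lemma measurable_nrm {H : X × Cfg Γ → ℝ} (hH : Measurable H) :
    Measurable fun x => nrm (fun ω => H (x, ω)) := by
  unfold nrm
  exact Measurable.lintegral_prod_right' (f := fun p : X × Cfg Γ => ENNReal.ofReal (H p ^ 2))
    (by fun_prop)

omit [Group Γ] in
lemma lintegral_nrm {H : X × Cfg Γ → ℝ} (hH : Measurable H) (m : Measure X) :
    ∫⁻ x, nrm (fun ω => H (x, ω)) ∂m = ∫⁻ p, ENNReal.ofReal (H p ^ 2) ∂(m.prod (lam Γ)) := by
  rw [lintegral_prod _ (by fun_prop)]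
  rfl

omit [Group Γ] in
lemma memLp_of_bdd {u : Cfg Γ → ℝ} (hu : Measurable u) {C : ℝ} (hC : ∀ ω, |u ω| ≤ C) :
    MemLp u 2 (lam Γ) :=
  MemLp.of_bound hu.aestronglyMeasurable C (Filter.Eventually.of_forall hC)

omit [Group Γ] in
lemma nrm_le_of_bdd {u : Cfg Γ → ℝ} {C : ℝ} (hC : ∀ ω, |u ω| ≤ C) :
    nrm u ≤ ENNReal.ofReal (C ^ 2) := by
  unfold nrm
  calc _ ≤ ∫⁻ _, ENNReal.ofReal (C ^ 2) ∂(lam Γ) := by
        refine lintegral_mono fun ω => ENNReal.ofReal_le_ofReal ?_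
        exact sq_le_sq' (abs_le.1 (hC ω)).1 (abs_le.1 (hC ω)).2
    _ = _ := by simp

lemma arith_key {N Q Q1 Q2 Da Db E R1 R2 : ℝ≥0∞} (hN : N ≠ ∞)
    (h1 : 4 * N ≤ 9 * Q + 21 * Da) (h2 : Q + Q1 + Q2 ≤ N)
    (h3 : 4 * Q ≤ 5 * R1 + 20 * Db) (h3' : R1 ≤ Q1 + E)
    (h4 : 4 * R2 ≤ 5 * Q2 + 20 * Db) (h4' : Q ≤ R2 + E) :
    N ≤ 39 * Da + 52 * Db + 12 * E := by
  by_cases hDa : Da = ∞
  · simp [hDa]
  by_cases hDb : Db = ∞
  · simp [hDb]
  by_cases hE : E = ∞
  · simp [hE]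
  have hQ : Q ≠ ∞ := ne_top_of_le_ne_top hN (le_trans (le_trans le_self_add le_self_add) h2)
  have hQ1 : Q1 ≠ ∞ := ne_top_of_le_ne_top hN (le_trans (le_trans le_add_self le_self_add) h2)
  have hQ2 : Q2 ≠ ∞ := ne_top_of_le_ne_top hN (le_trans le_add_self h2)
  have hR1 : R1 ≠ ∞ := ne_top_of_le_ne_top (by finiteness) h3'
  have hR2 : R2 ≠ ∞ := by
    have : 4 * R2 ≠ ∞ := ne_top_of_le_ne_top (by finiteness) h4
    intro h; simp [h] at this
  lift N to ℝ≥0 using hN
  lift Q to ℝ≥0 using hQ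
  lift Q1 to ℝ≥0 using hQ1
  lift Q2 to ℝ≥0 using hQ2
  lift R1 to ℝ≥0 using hR1
  lift R2 to ℝ≥0 using hR2
  lift Da to ℝ≥0 using hDa
  lift Db to ℝ≥0 using hDb
  lift E to ℝ≥0 using hE
  norm_cast at *
  rw [← NNReal.coe_le_coe] at *
  push_cast at *
  have := Db.2
  have := E.2
  have := Da.2
  simp only [NNReal.val_eq_coe] at *
  linarith

/-- The key inequality. -/
lemma Para.key {a b : Γ} {w : Γ → ℝ} (h : Para a b w) (m : Measure X) [IsProbabilityMeasure m]
    {T : X → X} (hT : Measurable T) {e : ℝ≥0∞}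
    (hm1 : ∀ (G : X → ℝ≥0∞) (M : ℝ≥0∞), Measurable G → (∀ x, G x ≤ M) →
      ∫⁻ x, G (T x) ∂m ≤ ∫⁻ x, G x ∂m + e * M)
    (hm2 : ∀ (G : X → ℝ≥0∞) (M : ℝ≥0∞), Measurable G → (∀ x, G x ≤ M) →
      ∫⁻ x, G x ∂m ≤ ∫⁻ x, G (T x) ∂m + e * M)
    {H : X × Cfg Γ → ℝ} (hH : Measurable H) {C : ℝ} (hC : ∀ p, |H p| ≤ C) :
    ∫⁻ p, ENNReal.ofReal (H p ^ 2) ∂(m.prod (lam Γ)) ≤
      39 * ∫⁻ p, ENNReal.ofReal ((H (p.1, shift a p.2) + H p) ^ 2) ∂(m.prod (lam Γ)) +
      52 * ∫⁻ p, ENNReal.ofReal ((H (T p.1, shift b p.2) - H p) ^ 2) ∂(m.prod (lam Γ)) +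
      12 * (e * ENNReal.ofReal (C ^ 2)) := by
  have hsa : Measurable (shift a) := (continuous_shift a).measurable
  have hsb : Measurable (shift b) := (continuous_shift b).measurable
  have hfm : ∀ x, Measurable fun ω => H (x, ω) := fun x => hH.comp measurable_prodMk_left
  have hfl : ∀ x, MemLp (fun ω => H (x, ω)) 2 (lam Γ) := fun x =>
    memLp_of_bdd (hfm x) fun ω => hC _
  have hHa : Measurable fun p : X × Cfg Γ => H (p.1, shift a p.2) + H p := by fun_prop
  have hHb : Measurable fun p : X × Cfg Γ => H (T p.1, shift b p.2) - H p := by fun_prop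
  rw [← lintegral_nrm hH, ← lintegral_nrm hHa, ← lintegral_nrm hHb]
  have hbd : ∀ (w' : Γ → ℝ), (∀ γ, w' γ ≤ 1) → ∀ x, qw w' (fun ω => H (x, ω)) ≤
      ENNReal.ofReal (C ^ 2) := fun w' hw' x =>
    (qw_le_nrm hw' (hfl x)).trans (nrm_le_of_bdd fun ω => hC _)
  refine arith_key (Q := ∫⁻ x, qw w (fun ω => H (x, ω)) ∂m)
    (Q1 := ∫⁻ x, qw (fun γ => w (b⁻¹ * γ)) (fun ω => H (x, ω)) ∂m)
    (Q2 := ∫⁻ x, qw (fun γ => w (b * γ)) (fun ω => H (x, ω)) ∂m)
    (R1 := ∫⁻ x, qw (fun γ => w (b⁻¹ * γ)) (fun ω => H (T x, ω)) ∂m)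
    (R2 := ∫⁻ x, qw w (fun ω => H (T x, ω)) ∂m) ?_ ?_ ?_ ?_ ?_ ?_ ?_
  · refine ne_top_of_le_ne_top (b := ∫⁻ _, ENNReal.ofReal (C ^ 2) ∂m) (by simp) ?_
    exact lintegral_mono fun x => nrm_le_of_bdd fun ω => hC _
  · rw [← lintegral_const_mul _ (measurable_nrm hH), ← lintegral_const_mul _ (measurable_qw hH w),
      ← lintegral_const_mul _ (measurable_nrm hHa),
      ← lintegral_add_left ((measurable_qw hH w).const_mul _)]
    exact lintegral_mono fun x => h.fiber_a (hfm x) (hfl x)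
  · rw [← lintegral_add_left (measurable_qw hH w),
      ← lintegral_add_right _ (measurable_qw hH _)]
    exact lintegral_mono fun x => (h.qw_pack _).trans (qw_le_nrm (fun _ => le_rfl) (hfl x))
  · rw [← lintegral_const_mul _ (measurable_qw hH w),
      ← lintegral_const_mul _ (measurable_nrm hHb),
      ← lintegral_const_mul' _ _ (by simp),
      ← lintegral_add_right _ ((measurable_nrm hHb).const_mul _)]
    refine lintegral_mono fun x => ?_
    have := qw_le_sub h.nonneg h.le_one (hfl x) (memLp_shift b (hfl (T x)))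
    rw [qw_shift b w (hfm (T x))] at this
    exact this
  · exact hm1 _ _ (measurable_qw hH _) (hbd _ fun γ => h.le_one _)
  · rw [← lintegral_const_mul _ (measurable_qw hH _),
      ← lintegral_const_mul _ (measurable_nrm hHb),
      ← lintegral_const_mul' _ _ (by simp),
      ← lintegral_add_right _ ((measurable_nrm hHb).const_mul _)]
    refine lintegral_mono fun x => ?_
    have := qw_le_sub (w := fun γ => w (b * γ)) (fun γ => h.nonneg _) (fun γ => h.le_one _)
      (memLp_shift b (hfl (T x))) (hfl x)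
    rw [qw_shift b _ (hfm (T x)), nrm_sub_comm] at this
    simpa using this
  · exact hm2 _ _ (measurable_qw hH _) (hbd _ h.le_one)

/-- Invariant sets of the product come from the base. -/
lemma Para.slice_zero_or_one {a b : Γ} {w : Γ → ℝ} (h : Para a b w) (μ : Measure X)
    [IsProbabilityMeasure μ] {S T : X → X} (hS : MeasurePreserving S μ μ)
    (hT : MeasurePreserving T μ μ) {s : Set (X × Cfg Γ)} (hs : MeasurableSet s)
    (hsa : ∀ x ω, (S x, shift a ω) ∈ s ↔ (x, ω) ∈ s)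
    (hsb : ∀ x ω, (T x, shift b ω) ∈ s ↔ (x, ω) ∈ s) :
    ∀ᵐ x ∂μ, lam Γ (Prod.mk x ⁻¹' s) = 0 ∨ lam Γ (Prod.mk x ⁻¹' s) = 1 := by
  classical
  set K : X × Cfg Γ → ℝ := s.indicator 1 with hK
  have hH : Measurable K := measurable_one.indicator hs
  have hC : ∀ p, |K p| ≤ 1 := fun p => by
    simp only [hK, indicator]; split_ifs <;> simp
  have hfm : ∀ x, Measurable fun ω => K (x, ω) := fun x => hH.comp measurable_prodMk_left
  have hfl : ∀ x, MemLp (fun ω => K (x, ω)) 2 (lam Γ) := fun x =>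
    memLp_of_bdd (hfm x) fun ω => hC _
  have inv : ∀ (g : Γ) (R : X → X), MeasurePreserving R μ μ →
      (∀ x ω, (R x, shift g ω) ∈ s ↔ (x, ω) ∈ s) → ∀ w' : Γ → ℝ,
      ∫⁻ x, qw w' (fun ω => K (x, ω)) ∂μ =
        ∫⁻ x, qw (fun γ => w' (g⁻¹ * γ)) (fun ω => K (x, ω)) ∂μ := by
    intro g R hR hsR w'
    rw [← hR.lintegral_comp (measurable_qw hH (fun γ => w' (g⁻¹ * γ)))]
    congr 1; funext x
    rw [← qw_shift g w' (hfm (R x))]
    congr 1; funext ω
    simp only [hK, indicator, hsR, Pi.one_apply]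
  set Q := ∫⁻ x, qw w (fun ω => K (x, ω)) ∂μ with hQ
  set R := ∫⁻ x, qw (fun _ => 1) (fun ω => K (x, ω)) ∂μ with hR
  have hRtop : R ≠ ∞ := by
    refine ne_top_of_le_ne_top (b := ∫⁻ _, ENNReal.ofReal (1 ^ 2) ∂μ) (by simp) ?_
    exact lintegral_mono fun x => (qw_le_nrm (fun _ => le_rfl) (hfl x)).trans
      (nrm_le_of_bdd fun ω => hC _)
  have h1 : R ≤ Q + Q := by
    nth_rewrite 2 [hQ]
    rw [inv a S hS hsa w, hQ, ← lintegral_add_left (measurable_qw hH w)]
    exact lintegral_mono fun x => h.qw_cover _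
  have h2 : Q + Q + Q ≤ R := by
    have e1 : Q = ∫⁻ x, qw (fun γ => w (b⁻¹ * γ)) (fun ω => K (x, ω)) ∂μ := inv b T hT hsb w
    have e2 : Q = ∫⁻ x, qw (fun γ => w (b * γ)) (fun ω => K (x, ω)) ∂μ := by
      rw [inv b T hT hsb]; simp [hQ]
    nth_rewrite 3 [e2]
    nth_rewrite 2 [e1]
    rw [hQ, ← lintegral_add_left (measurable_qw hH w), ← lintegral_add_right _ (measurable_qw hH _)]
    exact lintegral_mono fun x => h.qw_pack _
  have hR0 : R = 0 := by
    have hQtop : Q ≠ ∞ := ne_top_of_le_ne_top hRtop (le_trans le_add_self h2)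
    have h3 : Q + Q + Q ≤ Q + Q + 0 := by rw [add_zero]; exact h2.trans h1
    have h4 : Q = 0 := by
      have := (ENNReal.add_le_add_iff_left (by finiteness)).1 h3
      exact le_antisymm this zero_le
    rw [h4] at h1
    exact le_antisymm (by simpa using h1) zero_le
  rw [hR, lintegral_eq_zero_iff (measurable_qw hH _)] at hR0
  filter_upwards [hR0] with x hx
  have h5 := qw_one_add (hfl x)
  simp only [Pi.zero_apply] at hx
  rw [hx, zero_add] at h5
  have hsx : MeasurableSet (Prod.mk x ⁻¹' s) := measurable_prodMk_left hs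
  have e : (fun ω => K (x, ω)) = (Prod.mk x ⁻¹' s).indicator 1 := by
    funext ω; simp only [hK, indicator, mem_preimage, Pi.one_apply]
  have h6 : nrm (fun ω => K (x, ω)) = lam Γ (Prod.mk x ⁻¹' s) := by
    rw [e, nrm, ← lintegral_indicator_one hsx]
    congr 1; funext ω
    simp only [indicator]; split_ifs <;> simp
  have h7 : coef ∅ (fun ω => K (x, ω)) = (lam Γ).real (Prod.mk x ⁻¹' s) := by
    rw [e, coef, ← integral_indicator_one hsx]
    simp [chi_empty]
  rw [h6, h7] at h5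
  have h8 : (lam Γ).real (Prod.mk x ⁻¹' s) ^ 2 = (lam Γ).real (Prod.mk x ⁻¹' s) := by
    have := congrArg ENNReal.toReal h5
    rwa [ENNReal.toReal_ofReal (sq_nonneg _)] at this
  have h9 : (lam Γ).real (Prod.mk x ⁻¹' s) = 0 ∨ (lam Γ).real (Prod.mk x ⁻¹' s) = 1 := by
    have : (lam Γ).real (Prod.mk x ⁻¹' s) * ((lam Γ).real (Prod.mk x ⁻¹' s) - 1) = 0 := by
      linear_combination h8
    rcases mul_eq_zero.1 this with h | h
    · exact Or.inl h
    · exact Or.inr (by linarith)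
  rcases h9 with h | h
  · left; rwa [measureReal_eq_zero_iff] at h
  · right
    rw [Measure.real, ENNReal.toReal_eq_one_iff] at h
    exact h

end Prod

/-- The Bernoulli shift of an infinite torsion-free group is essentially free. -/
lemma lam_fixed [Infinite Γ] {g : Γ} (hg : g ≠ 1) (hg2 : g * g ≠ 1) :
    lam Γ {ω | shift g ω = ω} = 0 := by
  classical
  by_contra h0
  set Fx : Set (Cfg Γ) := {ω | shift g ω = ω} with hFx
  have hm : MeasurableSet Fx := (isClosed_eq (continuous_shift g) continuous_id).measurableSet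
  let P : Γ → Set (Cfg Γ) := fun γ => (fun ω => ω + Pi.single γ 1) ⁻¹' Fx
  have hPm : ∀ γ, MeasurableSet (P γ) := fun γ => measurable_add_const _ hm
  have hP : ∀ γ, lam Γ (P γ) = lam Γ Fx := fun γ => measure_preimage_add_right _ _ _
  have hd : Pairwise (Disjoint on P) := by
    intro γ γ' hne
    rw [Function.onFun, Set.disjoint_left]
    intro ω h1 h2
    have key : ∀ x, (Pi.single γ 1 : Cfg Γ) (g⁻¹ * x) - (Pi.single γ' 1 : Cfg Γ) (g⁻¹ * x) =
        (Pi.single γ 1 : Cfg Γ) x - (Pi.single γ' 1 : Cfg Γ) x := by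
      intro x
      have e1 := congrFun h1 x
      have e2 := congrFun h2 x
      simp only [shift, Pi.add_apply] at e1 e2
      linear_combination e1 - e2
    have k1 := key (g * γ)
    rw [inv_mul_cancel_left, Pi.single_eq_same, Pi.single_eq_of_ne hne,
      Pi.single_eq_of_ne (by simpa using hg)] at k1
    have hγ' : g * γ = γ' := by
      by_contra hc
      rw [Pi.single_eq_of_ne hc] at k1
      simp at k1
    have k2 := key (g * γ')
    rw [inv_mul_cancel_left, Pi.single_eq_same, Pi.single_eq_of_ne hne.symm,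
      Pi.single_eq_of_ne (i := γ') (by simpa using hg), Pi.single_eq_of_ne] at k2
    · simp at k2
    · rw [← hγ', ← mul_assoc]; simpa using hg2
  have h1 := measure_iUnion (μ := lam Γ) hd hPm
  simp only [hP] at h1
  rw [ENNReal.tsum_const_eq_top_of_ne_zero h0] at h1
  exact measure_ne_top _ _ h1

end

end Pool.Agent.P.MP_11b517_an
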