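import Pool.Agent.P.MP_11b517_an.Base

/-! The counterexample. -/

set_option autoImplicit false

open MeasureTheory Set Function TopologicalSpace Filter Topology
open scoped ENNReal NNReal

namespace Pool.Agent.P.MP_11b517_an

noncomputable section

variable {ι : Type}

open Classical in
/-- the action on the base -/
def act (i j : ι) (A : Set UnitAddCircle) : FreeGroup ι →* Equiv.Perm Base :=
  FreeGroup.lift fun k => if k = i then flipS A else if k = j then rotT else 1

lemma act_i (i j : ι) (A : Set UnitAddCircle) : act i j A (FreeGroup.of i) = flipS A := by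
  simp [act]

lemma act_j {i j : ι} (hij : i ≠ j) (A : Set UnitAddCircle) :
    act i j A (FreeGroup.of j) = rotT := by
  simp [act, hij.symm]

lemma act_other {i j k : ι} (hi : k ≠ i) (hj : k ≠ j) (A : Set UnitAddCircle) :
    act i j A (FreeGroup.of k) = 1 := by
  simp [act, hi, hj]

lemma mp_act {i j : ι} (hij : i ≠ j) {A : Set UnitAddCircle} (hA : MeasurableSet A)
    (g : FreeGroup ι) : MeasurePreserving (act i j A g) mu0 mu0 := by
  have hgen : ∀ k, MeasurePreserving (act i j A (FreeGroup.of k)) mu0 mu0 ∧
      MeasurePreserving ((act i j A (FreeGroup.of k))⁻¹ : Equiv.Perm Base) mu0 mu0 := by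
    intro k
    by_cases hi : k = i
    · rw [hi, act_i]; exact ⟨mp_flip hA, mp_flip hA⟩
    by_cases hj : k = j
    · rw [hj, act_j hij]; exact ⟨mp_rotT, mp_rotT_inv⟩
    · rw [act_other hi hj]; exact ⟨MeasurePreserving.id _, MeasurePreserving.id _⟩
  induction g using FreeGroup.induction_on with
  | C1 => rw [map_one]; exact MeasurePreserving.id _
  | of k => exact (hgen k).1
  | inv_of k _ => rw [map_inv]; exact (hgen k).2
  | mul x y hx hy => rw [map_mul]; exact hx.comp hy

/-- the diagonal action -/
@[reducible] def diag (i j : ι) (A : Set UnitAddCircle) :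
    MulAction (FreeGroup ι) (Base × Cfg (FreeGroup ι)) where
  smul g p := (act i j A g p.1, shift g p.2)
  one_smul p := by
    change (act i j A 1 p.1, shift 1 p.2) = p
    rw [map_one, shift_one]; rfl
  mul_smul g h p := by
    change (act i j A (g * h) p.1, shift (g * h) p.2) =
      (act i j A g (act i j A h p.1), shift g (shift h p.2))
    rw [map_mul, shift_mul]; rfl

theorem main (ι : Type) [Countable ι] [Nontrivial ι] :
    ∃ (Ω : Type) (_ : MeasurableSpace Ω) (_ : StandardBorelSpace Ω)
      (_ : MulAction (FreeGroup ι) Ω) (μ : Measure Ω),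
      IsProbabilityMeasure μ ∧
      (∀ g : FreeGroup ι, MeasurePreserving (fun ω : Ω => g • ω) μ μ) ∧
      (∀ s : Set Ω, MeasurableSet s →
          (∀ g : FreeGroup ι, (fun ω : Ω => g • ω) ⁻¹' s = s) → μ s = 0 ∨ μ s = 1) ∧
      (∀ g : FreeGroup ι, g ≠ 1 → μ {ω : Ω | g • ω = ω} = 0) ∧
      ∀ (X : Type) [TopologicalSpace X] [MeasurableSpace X] [MulAction (FreeGroup ι) X]
        [BorelSpace X] [CompactSpace X] [MetrizableSpace X],
        (∀ g : FreeGroup ι, Continuous (fun x : X => g • x)) →
        ∀ (ν : Measure X) [IsProbabilityMeasure ν],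
          (∀ ν' : Measure X, IsProbabilityMeasure ν' →
            (∀ g : FreeGroup ι, Measure.map (fun x : X => g • x) ν' = ν') → ν' = ν) →
          ∀ (φ : Ω → X) (ψ : X → Ω), Measurable φ → Measurable ψ → Measure.map φ μ = ν →
            (∀ g : FreeGroup ι, ∀ᵐ ω ∂μ, φ (g • ω) = g • φ ω) →
            (∀ᵐ ω ∂μ, ψ (φ ω) = ω) → False := by
  classical
  obtain ⟨i, j, hij⟩ := exists_pair_ne ι
  obtain ⟨w, hw⟩ := exists_para hij
  obtain ⟨A, m, hA, hAle, hmP, hmac, hmA, hmT⟩ := exists_small
  let _ := diag i j A
  have hsm : ∀ (g : FreeGroup ι) (p : Base × Cfg (FreeGroup ι)),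
      g • p = (act i j A g p.1, shift g p.2) := fun _ _ => rfl
  have hmp : ∀ g : FreeGroup ι, MeasurePreserving (fun ω : Base × Cfg (FreeGroup ι) => g • ω)
      (mu0.prod (lam _)) (mu0.prod (lam _)) := fun g =>
    (mp_act hij hA g).prod (measurePreserving_shift g)
  refine ⟨Base × Cfg (FreeGroup ι), inferInstance, inferInstance, inferInstance,
    mu0.prod (lam _), inferInstance, hmp, ?_, ?_, ?_⟩
  · intro s hs hinv
    have hmem : ∀ (g : FreeGroup ι) x ω, (act i j A g x, shift g ω) ∈ s ↔ (x, ω) ∈ s := by
      intro g x ω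
      have := Set.ext_iff.1 (hinv g) (x, ω)
      exact this
    have h01 := hw.slice_zero_or_one mu0 (mp_act hij hA (FreeGroup.of i))
      (mp_act hij hA (FreeGroup.of j)) hs (hmem _) (hmem _)
    have hsl : ∀ (g : FreeGroup ι) x, lam _ (Prod.mk (act i j A g x) ⁻¹' s) =
        lam _ (Prod.mk x ⁻¹' s) := by
      intro g x
      rw [← (measurePreserving_shift g).measure_preimage
        (measurable_prodMk_left hs).nullMeasurableSet]
      congr 1
      ext ω
      exact hmem g x ω
    let E : Set Base := {x | lam _ (Prod.mk x ⁻¹' s) = 1}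
    have hE : MeasurableSet E := measurable_measure_prodMk_left hs (measurableSet_singleton 1)
    have hsE : mu0.prod (lam _) s = mu0 E := by
      rw [Measure.prod_apply hs, ← lintegral_indicator_one hE]
      apply lintegral_congr_ae
      filter_upwards [h01] with x hx
      rcases hx with hx | hx
      · rw [hx, indicator_of_notMem]; simp [E, hx]
      · rw [hx, indicator_of_mem (by simpa [E] using hx)]; rfl
    rw [hsE]
    refine base_ergodic (A := A) (hAle.trans_lt (by simp)) hE (fun p => ?_) (fun p => ?_)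
    · have := hsl (FreeGroup.of j) p
      rw [act_j hij] at this
      change lam _ (Prod.mk (rotT p) ⁻¹' s) = 1 ↔ lam _ (Prod.mk p ⁻¹' s) = 1
      rw [this]
    · have := hsl (FreeGroup.of i) p
      rw [act_i, flipS_apply] at this
      change lam _ (Prod.mk (flipFun A p) ⁻¹' s) = 1 ↔ lam _ (Prod.mk p ⁻¹' s) = 1
      rw [this]
  · intro g hg
    have hg2 : g * g ≠ 1 := by
      intro h
      rw [← sq] at h
      exact hg ((pow_eq_one_iff_left two_ne_zero).1 h)
    have h0 := lam_fixed hg hg2
    refine measure_mono_null (t := univ ×ˢ {ω | shift g ω = ω}) ?_ ?_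
    · intro p hp
      exact ⟨trivial, congrArg Prod.snd hp⟩
    · rw [Measure.prod_prod, h0, mul_zero]
  · intro X _ _ _ _ _ _ hcont ν _ huniq φ ψ hφ hψ hmap heqv hinv
    have hfix : ∀ n, ∀ᵐ p ∂(m n), flipS A p = p := fun n => by
      filter_upwards [hmA n] with p hp
      simp [flipS_apply, flipFun, hp]
    have hAI : ∀ (k : ι) (n : ℕ), AlmostInv ((m n).prod (lam (FreeGroup ι)))
        (fun p => FreeGroup.of k • p) ((n + 1 : ℕ) : ℝ≥0∞)⁻¹ := by
      intro k n
      refine AlmostInv.prod (mp_act hij hA (FreeGroup.of k)).measurable ?_ _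
      by_cases hi : k = i
      · rw [hi, act_i]; exact AlmostInv.of_ae (hfix n) _
      by_cases hj : k = j
      · rw [hj, act_j hij]; exact hmT n
      · rw [act_other hi hj]; exact AlmostInv.of_ae (Eventually.of_forall fun _ => rfl) _
    have hsgn : Measurable sgn := measurable_of_finite _
    refine no_model (mu0.prod (lam _)) hmp (range FreeGroup.of) (FreeGroup.closure_range_of ι)
      (FreeGroup.of i) (FreeGroup.of j) (fun p => sgn p.1.2) (by fun_prop)
      (fun p => by rw [sq, sgn_mul_self]) (fun p => by rw [hsm, act_j hij]; rfl) ?_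
      (fun n => (m n).prod (lam _)) (fun n => (hmac n).prod (by rfl))
      (fun n => ((n + 1 : ℕ) : ℝ≥0∞)⁻¹)
      (ENNReal.tendsto_inv_nat_nhds_zero.comp (tendsto_add_atTop_nat 1)) ?_ ?_ ?_
      X hcont ν huniq φ ψ hφ hψ hmap heqv hinv
    · refine le_trans (measure_mono (t := (A ×ˢ univ) ×ˢ univ) ?_) ?_
      · intro p hp
        refine ⟨⟨?_, trivial⟩, trivial⟩
        by_contra hpA
        apply hp
        rw [hsm, act_i, flipS_apply]
        simp only [flipFun, if_neg hpA, sgn_add, sgn_one]
        ring
      · rw [Measure.prod_prod, mu0, Measure.prod_prod]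
        simpa using hAle
    · rintro _ ⟨k, rfl⟩ n G M hG hM
      exact (hAI k n G M hG hM).1
    · rintro _ ⟨k, rfl⟩ n G M hG hM
      exact (hAI k n G M hG hM).2
    · intro n H C hH hC
      have := hw.key (m n) mp_rotT.measurable (fun G M hG hM => (hmT n G M hG hM).1)
        (fun G M hG hM => (hmT n G M hG hM).2) hH hC
      simp only [hsm, act_i, act_j hij]
      refine this.trans (le_of_eq ?_)
      congr 3
      apply lintegral_congr_ae
      filter_upwards [Measure.quasiMeasurePreserving_fst.ae (hfix n)] with p hp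
      rw [hp]

end

end Pool.Agent.P.MP_11b517_an
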