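import Mathlib

/-! Walsh expansion on the Bernoulli shift over a countable group. -/

set_option autoImplicit false

open MeasureTheory Set Function TopologicalSpace
open scoped ENNReal

namespace Pool.Agent.P.MP_11b517_an

noncomputable section

/-- The space of configurations. -/
abbrev Cfg (Γ : Type) : Type := Γ → ZMod 2

variable {Γ : Type}

/-- the sign character of `ZMod 2` -/
def sgn (x : ZMod 2) : ℝ := if x = 0 then 1 else -1

lemma sgn_add (x y : ZMod 2) : sgn (x + y) = sgn x * sgn y := by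
  have hx : x = 0 ∨ x = 1 := by revert x; decide
  have hy : y = 0 ∨ y = 1 := by revert y; decide
  have h11 : (1 + 1 : ZMod 2) = 0 := by decide
  rcases hx with rfl | rfl <;> rcases hy with rfl | rfl <;> simp [sgn, h11]

lemma sgn_mul_self (x : ZMod 2) : sgn x * sgn x = 1 := by
  unfold sgn; split_ifs <;> norm_num

lemma sgn_zero : sgn 0 = 1 := by simp [sgn]

lemma sgn_one : sgn 1 = -1 := by simp [sgn]

lemma sgn_injective : Injective sgn := by
  intro x y h
  have hx : x = 0 ∨ x = 1 := by clear h; revert x; decide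
  have hy : y = 0 ∨ y = 1 := by clear h hx; revert y; decide
  rcases hx with rfl | rfl <;> rcases hy with rfl | rfl
  · rfl
  · rw [sgn_zero, sgn_one] at h; norm_num at h
  · rw [sgn_zero, sgn_one] at h; norm_num at h
  · rfl

lemma abs_sgn (x : ZMod 2) : |sgn x| = 1 := by
  unfold sgn; split_ifs <;> norm_num

/-- Walsh function -/
def chi (F : Finset Γ) : C(Cfg Γ, ℝ) where
  toFun ω := ∏ γ ∈ F, sgn (ω γ)
  continuous_toFun := continuous_finsetProd _ fun γ _ =>
    (continuous_of_discreteTopology (f := sgn)).comp (continuous_apply γ)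

lemma chi_apply (F : Finset Γ) (ω : Cfg Γ) : chi F ω = ∏ γ ∈ F, sgn (ω γ) := rfl

lemma chi_empty (ω : Cfg Γ) : chi (∅ : Finset Γ) ω = 1 := by simp [chi_apply]

lemma abs_chi (F : Finset Γ) (ω : Cfg Γ) : |chi F ω| = 1 := by
  rw [chi_apply, Finset.abs_prod]; simp [abs_sgn]

lemma chi_add (F : Finset Γ) (ω ω' : Cfg Γ) : chi F (ω + ω') = chi F ω * chi F ω' := by
  simp [chi_apply, sgn_add, Finset.prod_mul_distrib]

open Classical in
lemma chi_mul (F G : Finset Γ) (ω : Cfg Γ) :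
    chi F ω * chi G ω = chi (symmDiff F G) ω := by
  simp only [chi_apply]
  have h1 : ∏ γ ∈ F, sgn (ω γ) = (∏ γ ∈ F \ G, sgn (ω γ)) * ∏ γ ∈ F ∩ G, sgn (ω γ) := by
    rw [← Finset.prod_union (Finset.disjoint_sdiff_inter F G), Finset.sdiff_union_inter]
  have h2 : ∏ γ ∈ G, sgn (ω γ) = (∏ γ ∈ G \ F, sgn (ω γ)) * ∏ γ ∈ F ∩ G, sgn (ω γ) := by
    rw [Finset.inter_comm, ← Finset.prod_union (Finset.disjoint_sdiff_inter G F),
      Finset.sdiff_union_inter]
  have h3 : (∏ γ ∈ F ∩ G, sgn (ω γ)) * ∏ γ ∈ F ∩ G, sgn (ω γ) = 1 := by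
    rw [← Finset.prod_mul_distrib]; simp [sgn_mul_self]
  have h4 : symmDiff F G = (F \ G) ∪ (G \ F) := by
    ext x; simp [symmDiff_def]
  rw [h4, Finset.prod_union disjoint_sdiff_sdiff, h1, h2]
  linear_combination (∏ γ ∈ F \ G, sgn (ω γ)) * (∏ γ ∈ G \ F, sgn (ω γ)) * h3

open Classical in
lemma chi_single {F : Finset Γ} {γ : Γ} (h : γ ∈ F) : chi F (Pi.single γ 1) = -1 := by
  rw [chi_apply, ← Finset.mul_prod_erase F _ h]
  simp only [Pi.single_eq_same, sgn_one]
  rw [Finset.prod_eq_one]; · ring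
  intro x hx
  rw [Pi.single_eq_of_ne (Finset.ne_of_mem_erase hx), sgn_zero]

lemma span_chi_closure : (Submodule.span ℝ (range (chi (Γ := Γ)))).topologicalClosure = ⊤ := by
  classical
  have h1 : Subalgebra.toSubmodule (Algebra.adjoin ℝ (range (chi (Γ := Γ)))) =
      Submodule.span ℝ (range (chi (Γ := Γ))) := by
    apply Algebra.adjoin_eq_span_of_subset
    refine Subset.trans ?_ Submodule.subset_span
    intro x hx
    refine Submonoid.closure_induction (fun _ => id) ⟨∅, ?_⟩ ?_ hx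
    · ext1 z; exact chi_empty z
    · rintro - - - - ⟨m, rfl⟩ ⟨n, rfl⟩
      refine ⟨symmDiff m n, ?_⟩
      ext1 z
      exact (chi_mul m n z).symm
  have h2 : (Algebra.adjoin ℝ (range (chi (Γ := Γ)))).SeparatesPoints := by
    intro x y hxy
    obtain ⟨γ, hγ⟩ := Function.ne_iff.1 hxy
    refine ⟨_, ⟨chi {γ}, Algebra.subset_adjoin ⟨{γ}, rfl⟩, rfl⟩, ?_⟩
    simp only [chi_apply, Finset.prod_singleton]
    exact fun h => hγ (sgn_injective h)
  have h3 := ContinuousMap.subalgebra_topologicalClosure_eq_top_of_separatesPoints _ h2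
  rw [← h1]
  exact congr_arg Subalgebra.toSubmodule h3

variable [Countable Γ]

/-- The uniform Bernoulli measure, as normalized Haar measure. -/
def lam (Γ : Type) [Countable Γ] : Measure (Cfg Γ) := Measure.addHaarMeasure ⊤

instance : (lam Γ).IsAddHaarMeasure := by unfold lam; infer_instance

instance : IsProbabilityMeasure (lam Γ) :=
  ⟨by unfold lam; exact Measure.addHaarMeasure_self (K₀ := ⊤)⟩

lemma integral_chi {F : Finset Γ} (hF : F.Nonempty) : ∫ ω, chi F ω ∂(lam Γ) = 0 := by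
  classical
  obtain ⟨γ, hγ⟩ := hF
  refine integral_eq_zero_of_add_right_eq_neg (g := Pi.single γ 1) fun ω => ?_
  rw [chi_add, chi_single hγ]; ring

/-- Walsh functions in `L2` -/
abbrev chiLp (F : Finset Γ) : Lp ℝ 2 (lam Γ) := ContinuousMap.toLp (E := ℝ) 2 (lam Γ) ℝ (chi F)

lemma span_chiLp : (Submodule.span ℝ (range (chiLp (Γ := Γ)))).topologicalClosure = ⊤ := by
  convert!
    (ContinuousMap.toLp_denseRange ℝ (lam Γ) ℝ (p := 2) (by simp)).topologicalClosure_map_submodule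
      span_chi_closure
  rw [Submodule.map_span]
  unfold chiLp
  rw [range_comp']
  simp only [ContinuousLinearMap.coe_coe]

lemma orthonormal_chi : Orthonormal ℝ (chiLp (Γ := Γ)) := by
  classical
  rw [orthonormal_iff_ite]
  intro i j
  rw [ContinuousMap.inner_toLp (lam Γ) (chi i) (chi j)]
  simp only [conj_trivial]
  simp_rw [chi_mul]
  split_ifs with h
  · simp [h, chi_empty]
  · apply integral_chi
    rw [Finset.nonempty_iff_ne_empty]
    intro h'
    exact h (symmDiff_eq_bot.1 h').symm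

/-- Walsh basis -/
def chiBasis : HilbertBasis (Finset Γ) ℝ (Lp ℝ 2 (lam Γ)) :=
  HilbertBasis.mk orthonormal_chi span_chiLp.ge

/-- Walsh coefficient -/
def coef (F : Finset Γ) (u : Cfg Γ → ℝ) : ℝ := ∫ ω, u ω * chi F ω ∂(lam Γ)

lemma hasSum_sq_coef {u : Cfg Γ → ℝ} (hu : MemLp u 2 (lam Γ)) :
    HasSum (fun F => coef F u ^ 2) (∫ ω, u ω ^ 2 ∂(lam Γ)) := by
  have h := chiBasis.hasSum_inner_mul_inner hu.toLp hu.toLp
  have hb : ⇑(chiBasis (Γ := Γ)) = chiLp := HilbertBasis.coe_mk _ _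
  have h1 : ∀ F, inner ℝ (chiLp F) hu.toLp = coef F u := by
    intro F
    rw [L2.inner_def, coef]
    apply integral_congr_ae
    filter_upwards [ContinuousMap.coeFn_toLp (p := 2) (𝕜 := ℝ) (lam Γ) (chi F), hu.coeFn_toLp]
      with ω h1 h2
    rw [h1, h2]; simp
  have h2 : inner ℝ hu.toLp hu.toLp = ∫ ω, u ω ^ 2 ∂(lam Γ) := by
    rw [L2.inner_def]
    apply integral_congr_ae
    filter_upwards [hu.coeFn_toLp] with ω h2
    rw [h2]; simp [sq]
  rw [h2, hb] at h
  convert! h using 2 with F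
  rw [real_inner_comm, h1, sq]

/-- squared `L2` norm -/
def nrm (u : Cfg Γ → ℝ) : ℝ≥0∞ := ∫⁻ ω, ENNReal.ofReal (u ω ^ 2) ∂(lam Γ)

lemma tsum_coef {u : Cfg Γ → ℝ} (hu : MemLp u 2 (lam Γ)) :
    ∑' F, ENNReal.ofReal (coef F u ^ 2) = nrm u := by
  have h := hasSum_sq_coef hu
  rw [← ENNReal.ofReal_tsum_of_nonneg (fun _ => sq_nonneg _) h.summable, h.tsum_eq, nrm,
    ofReal_integral_eq_lintegral_ofReal]
  · exact hu.integrable_sq
  · exact Filter.Eventually.of_forall fun _ => sq_nonneg _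

lemma integrable_mul_chi {u : Cfg Γ → ℝ} (hu : MemLp u 2 (lam Γ)) (F : Finset Γ) :
    Integrable (fun ω => u ω * chi F ω) (lam Γ) := by
  refine (hu.integrable (by simp)).mul_bdd (c := 1) (chi F).continuous.aestronglyMeasurable ?_
  exact Filter.Eventually.of_forall fun ω => by rw [Real.norm_eq_abs, abs_chi]

lemma coef_sub {u v : Cfg Γ → ℝ} (hu : MemLp u 2 (lam Γ)) (hv : MemLp v 2 (lam Γ))
    (F : Finset Γ) : coef F (fun ω => u ω - v ω) = coef F u - coef F v := by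
  simp only [coef, sub_mul]
  exact integral_sub (integrable_mul_chi hu F) (integrable_mul_chi hv F)

lemma coef_add {u v : Cfg Γ → ℝ} (hu : MemLp u 2 (lam Γ)) (hv : MemLp v 2 (lam Γ))
    (F : Finset Γ) : coef F (fun ω => u ω + v ω) = coef F u + coef F v := by
  simp only [coef, add_mul]
  exact integral_add (integrable_mul_chi hu F) (integrable_mul_chi hv F)

/-- average of a weight over a finite set -/
def phi (w : Γ → ℝ) (F : Finset Γ) : ℝ := (∑ γ ∈ F, w γ) / F.card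

omit [Countable Γ] in
lemma phi_nonneg {w : Γ → ℝ} (hw : ∀ γ, 0 ≤ w γ) (F : Finset Γ) : 0 ≤ phi w F :=
  div_nonneg (Finset.sum_nonneg fun γ _ => hw γ) (Nat.cast_nonneg _)

omit [Countable Γ] in
lemma phi_mono {w w' : Γ → ℝ} (hw : ∀ γ, w γ ≤ w' γ) (F : Finset Γ) : phi w F ≤ phi w' F :=
  div_le_div_of_nonneg_right (Finset.sum_le_sum fun γ _ => hw γ) (Nat.cast_nonneg _)

omit [Countable Γ] in
lemma phi_add (w w' : Γ → ℝ) (F : Finset Γ) :
    phi (fun γ => w γ + w' γ) F = phi w F + phi w' F := by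
  simp [phi, Finset.sum_add_distrib, add_div]

omit [Countable Γ] in
open Classical in
lemma phi_one (F : Finset Γ) : phi (fun _ => 1) F = if F = ∅ then 0 else 1 := by
  classical
  split_ifs with h
  · simp [phi, h]
  · have : (F.card : ℝ) ≠ 0 := by simpa using h
    simp [phi, this]

omit [Countable Γ] in
lemma phi_le_one {w : Γ → ℝ} (hw : ∀ γ, w γ ≤ 1) (F : Finset Γ) : phi w F ≤ 1 := by
  refine (phi_mono hw F).trans ?_
  rw [phi_one]; split_ifs <;> norm_num

/-- weighted spectral mass -/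
def qw (w : Γ → ℝ) (u : Cfg Γ → ℝ) : ℝ≥0∞ := ∑' F, ENNReal.ofReal (phi w F * coef F u ^ 2)

lemma qw_mono {w w' : Γ → ℝ} (hw : ∀ γ, w γ ≤ w' γ) (u : Cfg Γ → ℝ) : qw w u ≤ qw w' u :=
  ENNReal.tsum_le_tsum fun F => ENNReal.ofReal_le_ofReal
    (mul_le_mul_of_nonneg_right (phi_mono hw F) (sq_nonneg _))

lemma qw_add {w w' : Γ → ℝ} (hw : ∀ γ, 0 ≤ w γ) (hw' : ∀ γ, 0 ≤ w' γ) (u : Cfg Γ → ℝ) :
    qw (fun γ => w γ + w' γ) u = qw w u + qw w' u := by
  simp only [qw]
  rw [← ENNReal.tsum_add]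
  congr 1; funext F
  rw [phi_add, add_mul, ENNReal.ofReal_add (mul_nonneg (phi_nonneg hw F) (sq_nonneg _))
    (mul_nonneg (phi_nonneg hw' F) (sq_nonneg _))]

lemma qw_one_add {u : Cfg Γ → ℝ} (hu : MemLp u 2 (lam Γ)) :
    qw (fun _ => 1) u + ENNReal.ofReal (coef ∅ u ^ 2) = nrm u := by
  classical
  rw [← tsum_coef hu, ENNReal.tsum_eq_add_tsum_ite ∅, add_comm, qw]
  congr 2; funext F
  rw [phi_one]; split_ifs <;> simp

lemma qw_le_nrm {w : Γ → ℝ} (hw : ∀ γ, w γ ≤ 1) {u : Cfg Γ → ℝ} (hu : MemLp u 2 (lam Γ)) :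
    qw w u ≤ nrm u :=
  (qw_mono hw u).trans (by rw [← qw_one_add hu]; exact le_self_add)

lemma qw_le_aux {w : Γ → ℝ} (hw0 : ∀ γ, 0 ≤ w γ) (hw1 : ∀ γ, w γ ≤ 1) {u v d : Cfg Γ → ℝ}
    (hd : MemLp d 2 (lam Γ))
    (h : ∀ F, 4 * coef F u ^ 2 ≤ 5 * coef F v ^ 2 + 20 * coef F d ^ 2) :
    4 * qw w u ≤ 5 * qw w v + 20 * nrm d := by
  rw [← tsum_coef hd, qw, qw, ← ENNReal.tsum_mul_left, ← ENNReal.tsum_mul_left,
    ← ENNReal.tsum_mul_left, ← ENNReal.tsum_add]
  refine ENNReal.tsum_le_tsum fun F => ?_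
  have h0 := phi_nonneg hw0 F
  have h1 := phi_le_one hw1 F
  have e4 : (4 : ℝ≥0∞) = ENNReal.ofReal 4 := by simp
  have e5 : (5 : ℝ≥0∞) = ENNReal.ofReal 5 := by simp
  have e20 : (20 : ℝ≥0∞) = ENNReal.ofReal 20 := by simp
  rw [e4, e5, e20, ← ENNReal.ofReal_mul (by norm_num), ← ENNReal.ofReal_mul (by norm_num),
    ← ENNReal.ofReal_mul (by norm_num), ← ENNReal.ofReal_add (by positivity) (by positivity)]
  apply ENNReal.ofReal_le_ofReal
  have h2 := mul_le_mul_of_nonneg_left (h F) h0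
  have h3 := mul_le_mul_of_nonneg_right h1 (sq_nonneg (coef F d))
  nlinarith

lemma qw_le_sub {w : Γ → ℝ} (hw0 : ∀ γ, 0 ≤ w γ) (hw1 : ∀ γ, w γ ≤ 1) {u v : Cfg Γ → ℝ}
    (hu : MemLp u 2 (lam Γ)) (hv : MemLp v 2 (lam Γ)) :
    4 * qw w u ≤ 5 * qw w v + 20 * nrm (fun ω => v ω - u ω) := by
  refine qw_le_aux hw0 hw1 (hv.sub hu) fun F => ?_
  rw [coef_sub hv hu]
  nlinarith [sq_nonneg (coef F v - 4 * (coef F u - coef F v))]

lemma qw_le_add {w : Γ → ℝ} (hw0 : ∀ γ, 0 ≤ w γ) (hw1 : ∀ γ, w γ ≤ 1) {u v : Cfg Γ → ℝ}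
    (hu : MemLp u 2 (lam Γ)) (hv : MemLp v 2 (lam Γ)) :
    4 * qw w u ≤ 5 * qw w v + 20 * nrm (fun ω => u ω + v ω) := by
  refine qw_le_aux hw0 hw1 (hu.add hv) fun F => ?_
  rw [coef_add hu hv]
  nlinarith [sq_nonneg (coef F v + 4 * (coef F u + coef F v))]

section Shift

variable [Group Γ]

/-- the left shift -/
def shift (g : Γ) (ω : Cfg Γ) : Cfg Γ := fun γ => ω (g⁻¹ * γ)

omit [Countable Γ] in
lemma shift_one (ω : Cfg Γ) : shift 1 ω = ω := by funext γ; simp [shift]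

omit [Countable Γ] in
lemma shift_mul (g h : Γ) (ω : Cfg Γ) : shift (g * h) ω = shift g (shift h ω) := by
  funext γ; simp [shift, mul_assoc]

omit [Countable Γ] in
lemma continuous_shift (g : Γ) : Continuous (shift g) :=
  continuous_pi fun _ => continuous_apply _

lemma measurePreserving_shift (g : Γ) : MeasurePreserving (shift g) (lam Γ) (lam Γ) := by
  let f : Cfg Γ →+ Cfg Γ :=
    { toFun := shift g
      map_zero' := rfl
      map_add' := fun _ _ => rfl }
  refine AddMonoidHom.measurePreserving (f := f) (continuous_shift g) ?_ rfl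
  intro ω
  refine ⟨shift g⁻¹ ω, ?_⟩
  change shift g (shift g⁻¹ ω) = ω
  rw [← shift_mul, mul_inv_cancel, shift_one]

omit [Countable Γ] in
lemma chi_shift (g : Γ) (F : Finset Γ) (ω : Cfg Γ) :
    chi ((Equiv.mulLeft g).finsetCongr F) (shift g ω) = chi F ω := by
  simp [chi_apply, shift]

lemma coef_shift (g : Γ) (F : Finset Γ) {u : Cfg Γ → ℝ} (hu : Measurable u) :
    coef F (fun ω => u (shift g ω)) = coef ((Equiv.mulLeft g).finsetCongr F) u := by
  unfold coef
  have h := integral_map (μ := lam Γ) (measurePreserving_shift g).measurable.aemeasurable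
    (f := fun ω => u ω * chi ((Equiv.mulLeft g).finsetCongr F) ω)
    (hu.mul (chi _).continuous.measurable).aestronglyMeasurable
  rw [(measurePreserving_shift g).map_eq] at h
  rw [h]
  simp only [chi_shift]

lemma qw_shift (g : Γ) (w : Γ → ℝ) {u : Cfg Γ → ℝ} (hu : Measurable u) :
    qw w (fun ω => u (shift g ω)) = qw (fun γ => w (g⁻¹ * γ)) u := by
  unfold qw
  rw [← ((Equiv.mulLeft g).finsetCongr).tsum_eq (fun F =>
    ENNReal.ofReal (phi (fun γ => w (g⁻¹ * γ)) F * coef F u ^ 2))]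
  congr 1; funext F
  rw [coef_shift g F hu]
  simp [phi]

lemma nrm_shift (g : Γ) {u : Cfg Γ → ℝ} (hu : Measurable u) :
    nrm (fun ω => u (shift g ω)) = nrm u :=
  (measurePreserving_shift g).lintegral_comp (f := fun ω => ENNReal.ofReal (u ω ^ 2))
    (by fun_prop)

lemma memLp_shift (g : Γ) {u : Cfg Γ → ℝ} (hu : MemLp u 2 (lam Γ)) :
    MemLp (fun ω => u (shift g ω)) 2 (lam Γ) :=
  hu.comp_measurePreserving (measurePreserving_shift g)

end Shift

end

end Pool.Agent.P.MP_11b517_an
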